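import Mathlib
import Pool.Agent.Helper92.RandomSubstitution
import Pool.Agent.Helper92.RSExample

set_option autoImplicit false

namespace Pool.Agent.Results.MP_0ef12e_an.ShiftRoots

open Pool.Agent.Helper92.RS


/-- For every `n ≥ 2` there is a random substitution that is primitive, compatible,
non-degenerate (and moreover recognisable), whose RS-subshift is nonempty, such that the shift
has an `n`-th root in the automorphism group of the RS-subshift. -/
theorem result : ∀ n : ℕ, 2 ≤ n →
    ∃ (A : Type) (_ : Fintype A) (_ : DecidableEq A) (_ : TopologicalSpace A)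
      (_ : DiscreteTopology A) (θ : RandomSubstitution A),
      θ.Primitive ∧ θ.Compatible ∧ θ.NonDegenerate ∧ θ.Recognisable ∧ θ.subshift.Nonempty ∧
      ∃ f ∈ θ.Aut, f ^ n = θ.shift := by
  intro n hn
  have : NeZero n := ⟨by omega⟩
  exact ⟨Fin n → Bool, inferInstance, inferInstance, inferInstance, inferInstance, theta n,
    theta_primitive n hn, theta_compatible n hn, theta_nonDegenerate n hn,
    theta_recognisable n hn, theta_nonempty n hn, root n hn, root_mem_Aut n hn, root_pow n hn⟩

end Pool.Agent.Results.MP_0ef12e_an.ShiftRoots
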